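import Mathlib

set_option autoImplicit false

/-! A downcrossing inequality for partial sums of an increasing family of sequences. -/

namespace Pool.Agent.H.MP_05754a_lc

open Finset

theorem cover {L : ℕ} (hL : 0 < L) (l : ℕ → ℕ) (w : ℕ → ℝ) (w0 : ∀ p, 0 ≤ w p) (e : ℕ) (B : Finset ℕ) : ∀ a : ℕ,
    (∀ j ∈ B, a ≤ j ∧ 0 < l j ∧ j + l j ≤ e ∧ ((B.filter fun i => j ≤ i ∧ i < j + l j ∧ l i ≤ (L + 1) * l j).card : ℝ) +
      l j / L ≤ ∑ p ∈ Ico j (j + l j), w p) → (B.card : ℝ) ≤ ∑ p ∈ Ico a e, w p := by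
  induction B using Finset.strongInduction with
  | H B ih =>
  intro a h
  rcases B.eq_empty_or_nonempty with rfl | k
  · simpa using sum_nonneg fun p _ => w0 p
  obtain ⟨b, b1, b2⟩ := B.exists_min_image id k
  obtain ⟨j, j1, j2⟩ := (B.filter fun i => (i - b) * L ≤ l i).exists_max_image l ⟨b, by simpa⟩
  simp only [mem_filter, id] at j1 j2 b2
  obtain ⟨h1, h2, h3, h4⟩ := h j j1.1
  have q := ih (B.filter fun i => j + l j ≤ i) (filter_ssubset.2 ⟨j, j1.1, by omega⟩) (j + l j) fun i m => by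
    obtain ⟨g1, g2, g3, g4⟩ := h i (mem_filter.1 m).1
    exact ⟨(mem_filter.1 m).2, g2, g3, le_trans (by gcongr; exact filter_subset ..) g4⟩
  have r : B ⊆ Ico b j ∪ (B.filter fun i => j ≤ i ∧ i < j + l j ∧ l i ≤ (L + 1) * l j) ∪
      B.filter fun i => j + l j ≤ i := fun i m => by
    have := b2 i m
    have := b2 j j1.1
    simp only [mem_union, mem_Ico, mem_filter, m, true_and]
    by_contra o
    have : (i - b) * L ≤ (j - b + l j) * L := by gcongr; omega
    have := j2 i ⟨m, by nlinarith [show (L + 1) * l j < l i by omega]⟩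
    nlinarith [show (L + 1) * l j < l i by omega]
  have r := (card_le_card r).trans ((card_union_le ..).trans (Nat.add_le_add_right (card_union_le ..) _))
  rw [Nat.card_Ico, ← Nat.cast_le (α := ℝ), Nat.cast_add, Nat.cast_add] at r
  have : ((j - b : ℕ) : ℝ) ≤ l j / L := by
    rw [le_div_iff₀ (by positivity)]
    exact_mod_cast j1.2
  have := sum_Ico_consecutive w (Nat.le_add_right j (l j)) h3
  have := sum_le_sum_of_subset_of_nonneg (Ico_subset_Ico_left h1 (b := e)) fun p _ _ => w0 p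
  linarith

/-- `k` sparse downcrossings of length at most `N`; `S s n` is the sum of `n` terms at stage `s` -/
def C (A K : ℕ) (S : ℕ → ℕ → ℕ) (k N : ℕ) : Prop := ∃ u v : List ℕ, ∀ j < k,
  K * K * u.getD j 0 ≤ v.getD j 0 ∧ v.getD j 0 ≤ N ∧ (A + 1) * u.getD j 0 < S (v.getD j 0) (u.getD j 0) ∧
    S (K * v.getD j 0) (v.getD j 0) < A * v.getD j 0 ∧ ∀ i < j, K * K * v.getD i 0 ≤ u.getD j 0

theorem C.congr {A K k N M : ℕ} {S S' : ℕ → ℕ → ℕ} (hK : 0 < K) (h : C A K S k N) (hM : N ≤ M)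
    (e : ∀ s ≤ K * N, ∀ n ≤ N, S s n = S' s n) : C A K S' k M := by
  obtain ⟨u, v, h⟩ := h
  refine ⟨u, v, fun j m => ?_⟩
  obtain ⟨a, b, c, d, f⟩ := h j m
  have : u.getD j 0 ≤ v.getD j 0 := le_trans (Nat.le_mul_of_pos_left _ (by positivity)) a
  exact ⟨a, b.trans hM, by rwa [← e _ (b.trans (Nat.le_mul_of_pos_left _ hK)) _ (this.trans b)],
    by rwa [← e _ (by gcongr) _ b], f⟩

open Classical in
theorem step {A L k : ℕ} (hL : 2 * A < L) {g : ℕ → ℕ → ℕ} (hg : ∀ p, Monotone fun s => g s p) {d : ℝ} (d0 : 0 ≤ d)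
    (h : ∀ a M N : ℕ, (((Ico a (a + M)).filter fun i =>
      C A (L + 1) (fun s n => ∑ p ∈ range n, g s (i + p)) k N).card : ℝ) ≤ d * (M + N)) (a M N : ℕ) :
    (((Ico a (a + M)).filter fun i => C A (L + 1) (fun s n => ∑ p ∈ range n, g s (i + p)) (k + 1) N).card : ℝ) ≤
      ((2 * A + 1) / (2 * A + 2) * d + 3 / L) * (M + N) := by
  generalize e : ((Ico a (a + M)).filter fun i =>
    C A (L + 1) (fun s n => ∑ p ∈ range n, g s (i + p)) (k + 1) N) = B
  have : ∀ i ∈ B, ∃ n m, a ≤ i ∧ i < a + M ∧ (L + 1) * (L + 1) * n ≤ m ∧ m ≤ N ∧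
      (A + 1) * n < ∑ p ∈ range n, g m (i + p) ∧ ∑ p ∈ range m, g ((L + 1) * m) (i + p) < A * m ∧
        ∀ r, n ≤ (L + 1) * r → C A (L + 1) (fun s n => ∑ p ∈ range n, g s (i + p)) k (r / (L + 1)) := fun i m => by
    rw [← e, mem_filter, mem_Ico] at m
    obtain ⟨⟨m1, m2⟩, u, v, m⟩ := m
    obtain ⟨b, c, f, o, q⟩ := m k k.lt_succ_self
    refine ⟨_, _, m1, m2, b, c, f, o, fun r t => ⟨u, v, fun j x => ?_⟩⟩
    obtain ⟨b, -, f⟩ := m j (by omega)
    exact ⟨b, (Nat.le_div_iff_mul_le L.succ_pos).2 (Nat.le_of_mul_le_mul_left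
      (le_trans (le_of_eq (by rw [Nat.succ_eq_add_one]; ring)) ((q j x).trans t)) L.succ_pos), f⟩
  choose! n m b1 b2 b3 b4 b5 b6 b7 using this
  have L0 : (0 : ℝ) < L := by norm_cast; omega
  have n0 : ∀ i ∈ B, 0 < n i := fun i k => Nat.pos_of_ne_zero fun o => by simpa [o] using b5 i k
  have m0 : ∀ i ∈ B, 0 < m i := fun i k => lt_of_lt_of_le (by have := n0 i k; positivity) (b3 i k)
  refine (cover (L := L) (by omega) m (fun _ => (2 * A + 1) / (2 * A + 2) * d + 3 / L) (fun _ => by positivity)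
    (a + M + N) B a fun j hj => ⟨b1 j hj, m0 j hj, by have := b2 j hj; have := b4 j hj; omega, ?_⟩).trans (by
      simp only [add_assoc a, sum_const, Nat.card_Ico, Nat.add_sub_cancel_left, nsmul_eq_mul, Nat.cast_add, mul_comm, le_refl])
  generalize f : (B.filter fun i => j ≤ i ∧ i < j + m j ∧ m i ≤ (L + 1) * m j) = F
  have hF : ∀ i ∈ F, i ∈ B ∧ j ≤ i ∧ i < j + m j ∧ m i ≤ (L + 1) * m j := fun i o => by simpa [← f] using o
  obtain ⟨c, hc⟩ : ∃ c : ℝ, c = (d * (1 + 1 / L) + 1 / L) / (A + 1) := ⟨_, rfl⟩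
  have c0 : 0 ≤ c := by rw [hc]; positivity
  have q := cover (L := L) (by omega) n (fun p => c * g ((L + 1) * m j) p) (fun _ => by positivity) (j + m j)
    (F.filter fun i => i + n i ≤ j + m j) j fun x hx => by
      obtain ⟨hx, x1⟩ := mem_filter.1 hx
      obtain ⟨hx, x2, x3, x4⟩ := hF x hx
      refine ⟨x2, n0 x hx, x1, ?_⟩
      have y1 := h x (n x) (n x / (L + 1))
      have y2 : ((n x / (L + 1) : ℕ) : ℝ) ≤ n x / L := Nat.cast_div_le.trans (by gcongr; simp)
      have y3 : ((A + 1) * n x : ℝ) ≤ ∑ p ∈ Ico x (x + n x), (g ((L + 1) * m j) p : ℝ) := by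
        rw [sum_Ico_eq_sum_range, Nat.add_sub_cancel_left]
        exact_mod_cast (b5 x hx).le.trans (sum_le_sum fun p _ => hg _ x4)
      rw [← mul_sum]
      refine le_trans (add_le_add_left (le_trans (Nat.cast_le.2 (card_le_card fun i o => ?_)) y1) _) ?_
      · simp only [mem_filter, mem_Ico] at o ⊢
        exact ⟨⟨o.2.1, o.2.2.1⟩, b7 i (hF i o.1.1).1 _ o.2.2.2⟩
      refine le_trans ?_ (mul_le_mul_of_nonneg_left y3 c0)
      have : c * ((A + 1) * n x) = d * (n x + n x / L) + n x / L := by rw [hc]; field_simp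
      nlinarith
  have r : F ⊆ (F.filter fun i => i + n i ≤ j + m j) ∪ Ico (j + m j - m j / L) (j + m j) := fun i o => by
    obtain ⟨y1, y2, y3, y4⟩ := hF i o
    have : n i ≤ m j / L := (Nat.le_div_iff_mul_le (by omega)).2 (Nat.le_of_mul_le_mul_left
      (le_trans (by nlinarith) ((b3 i y1).trans y4)) L.succ_pos)
    simp only [mem_union, mem_filter, mem_Ico, o, true_and]
    omega
  have r := (card_le_card r).trans (card_union_le ..)
  have y1 : j + m j - (j + m j - m j / L) ≤ m j / L := by generalize m j / L = z; omega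
  have y2 : ((m j / L : ℕ) : ℝ) ≤ m j / L := Nat.cast_div_le
  have r := r.trans (Nat.add_le_add_left (Nat.card_Ico .. ▸ y1) _)
  rw [← Nat.cast_le (α := ℝ), Nat.cast_add] at r
  rw [← mul_sum, sum_Ico_eq_sum_range, Nat.add_sub_cancel_left] at q
  have y3 : ∑ p ∈ range (m j), (g ((L + 1) * m j) (j + p) : ℝ) ≤ A * m j := by exact_mod_cast (b6 j hj).le
  have y4 : c * A ≤ (2 * A + 1) / (2 * A + 2) * d + 1 / L := by
    have : (2 * A : ℝ) ≤ L := by exact_mod_cast hL.le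
    rw [hc]
    field_simp
    nlinarith [mul_nonneg d0 (sub_nonneg.2 this)]
  have y5 := mul_le_mul_of_nonneg_left y3 c0
  have y6 := mul_le_mul_of_nonneg_right y4 (Nat.cast_nonneg (α := ℝ) (m j))
  simp only [sum_const, Nat.card_Ico, Nat.add_sub_cancel_left, nsmul_eq_mul]
  have : (m j : ℝ) * ((2 * A + 1) / (2 * A + 2) * d + 3 / L) =
    ((2 * A + 1) / (2 * A + 2) * d + 1 / L) * m j + m j / L + m j / L := by ring
  nlinarith

open Classical in
theorem bound {A L : ℕ} (hL : 2 * A < L) {g : ℕ → ℕ → ℕ} (hg : ∀ p, Monotone fun s => g s p) (k : ℕ) : ∀ a M N : ℕ,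
    (((Ico a (a + M)).filter fun i => C A (L + 1) (fun s n => ∑ p ∈ range n, g s (i + p)) k N).card : ℝ) ≤
      (((2 * A + 1) / (2 * A + 2)) ^ k + 6 * (A + 1) / L) * (M + N) := by
  have L0 : (0 : ℝ) < L := by norm_cast; omega
  induction k with
  | zero =>
    intro a M N
    refine (Nat.cast_le.2 (card_filter_le ..)).trans ?_
    have : 0 ≤ 6 * (A + 1) / (L : ℝ) * (M + N) := by positivity
    simp
    nlinarith
  | succ k ih => exact fun a M N => (step hL hg (by positivity) ih a M N).trans (le_of_eq (by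
      rw [pow_succ]; generalize ((2 * A + 1) / (2 * A + 2) : ℝ) ^ k = z; field_simp; ring))

theorem small (A m : ℕ) : ((2 * A + 1) / (2 * A + 2) : ℝ) ^ ((2 * A + 1) * (m + 1)) +
    6 * (A + 1) / ((12 * (A + 1) * 2 ^ m : ℕ) : ℝ) ≤ 2⁻¹ ^ m := by
  have := one_add_mul_le_pow (a := (1 / (2 * A + 1) : ℝ)) (le_trans (by norm_num) (by positivity : (0 : ℝ) ≤ _)) (2 * A + 1)
  have h : ((2 * A + 1) / (2 * A + 2) : ℝ) ^ (2 * A + 1) ≤ 2⁻¹ := by
    rw [← inv_div, inv_pow]
    refine inv_anti₀ two_pos (le_trans (le_of_eq ?_) (this.trans (le_of_eq (congrArg (· ^ _) ?_))))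
    · push_cast; field_simp; ring
    · field_simp; ring
  rw [pow_mul]
  refine (add_le_add_left (pow_le_pow_left₀ (by positivity) h _) _).trans (le_of_eq ?_)
  push_cast
  simp only [inv_pow]
  field_simp
  ring

end Pool.Agent.H.MP_05754a_lc
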